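import Pool.Agent.PST.StmtsET2

/-!
# Squad PST, block ET, row PCM: `ℓ`-th powers modulo the commutators

The polynomial `(a + X b) ^ ℓ` has the derivative `∑ (a + X b) ^ i b (a + X b) ^ (ℓ - 1 - i)`, which is
`ℓ b (a + X b) ^ (ℓ - 1) = 0` modulo the commutators, so `k c_k` is a sum of commutators for every coefficient `c_k`.
-/

noncomputable section

namespace Pool.Agent.PST.ET.H65

open Polynomial

variable {R D : Type} [CommRing R] [Ring D] [Algebra R D]

theorem comm_mem (a b : D) : a * b - b * a ∈ cmt R D := Submodule.subset_span ⟨a, b, rfl⟩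

theorem pc_comm (P Q : D[X]) (k : ℕ) : (P * Q - Q * P).coeff k ∈ cmt R D := by
  rw [coeff_sub, coeff_mul, coeff_mul,
    ← Finset.Nat.sum_antidiagonal_swap (f := fun x : ℕ × ℕ => Q.coeff x.1 * P.coeff x.2) (n := k),
    ← Finset.sum_sub_distrib]
  refine Submodule.sum_mem _ fun x _ => ?_
  exact comm_mem _ _

theorem der_pow (P : D[X]) (n : ℕ) :
    derivative (P ^ n) = ∑ i ∈ Finset.range n, P ^ i * derivative P * P ^ (n - 1 - i) := by
  induction n with
  | zero => simp
  | succ n ih =>
    rw [pow_succ, derivative_mul, ih, Finset.sum_mul, Finset.sum_range_succ]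
    congr 1
    · refine Finset.sum_congr rfl fun i hi => ?_
      rw [Finset.mem_range] at hi
      rw [mul_assoc _ _ P, ← pow_succ]
      congr 2
      omega
    · simp

theorem pc_der (P : D[X]) (n k : ℕ) :
    (derivative (P ^ n) - (n : D[X]) * (derivative P * P ^ (n - 1))).coeff k ∈ cmt R D := by
  have h : derivative (P ^ n) - (n : D[X]) * (derivative P * P ^ (n - 1)) =
      ∑ i ∈ Finset.range n, (P ^ i * (derivative P * P ^ (n - 1 - i)) -
        (derivative P * P ^ (n - 1 - i)) * P ^ i) := by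
    rw [der_pow, Finset.sum_sub_distrib]
    congr 1
    · refine Finset.sum_congr rfl fun i _ => ?_
      rw [mul_assoc]
    · rw [Finset.sum_congr rfl (g := fun _ => derivative P * P ^ (n - 1))]
      · rw [Finset.sum_const, Finset.card_range, nsmul_eq_mul]
      · intro i hi
        rw [Finset.mem_range] at hi
        rw [mul_assoc, ← pow_add]
        congr 2
        omega
  rw [h, finsetSum_coeff]
  exact Submodule.sum_mem _ fun i _ => pc_comm _ _ _

theorem pcm : PcmStmt := by
  intro ℓ hℓ R D _ _ _ _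
  have hp : ℓ.Prime := hℓ.out
  have hcD : (ℓ : D) = 0 := by
    have h1 : ((ℓ : R) : R) = 0 := CharP.cast_eq_zero R ℓ
    have h2 := congrArg (algebraMap R D) h1
    rwa [map_natCast, map_zero] at h2
  have key : ∀ a b : D, (a + b) ^ ℓ - a ^ ℓ - b ^ ℓ ∈ cmt R D := by
    intro a b
    obtain ⟨P, hP⟩ : ∃ P : D[X], P = C a + X * C b := ⟨_, rfl⟩
    have hdeg : P.natDegree ≤ 1 := by
      rw [hP]
      refine (natDegree_add_le _ _).trans (max_le (by simp) ?_)
      refine (natDegree_mul_le).trans ?_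
      have := natDegree_X_le (R := D)
      simp only [natDegree_C, add_zero]
      exact this
    have hc0 : P.coeff 0 = a := by
      rw [hP]
      simp
    have hc1 : P.coeff 1 = b := by
      rw [hP]
      simp [coeff_C]
    have h0 : (P ^ ℓ).coeff 0 = a ^ ℓ := by
      have := map_pow (constantCoeff (R := D)) P ℓ
      simp only [constantCoeff_apply] at this
      rw [this, hc0]
    have h1 : (P ^ ℓ).coeff ℓ = b ^ ℓ := by
      have := coeff_pow_of_natDegree_le (m := ℓ) hdeg
      rw [mul_one] at this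
      rw [this, hc1]
    have hdl : (P ^ ℓ).natDegree ≤ ℓ := by
      refine (natDegree_pow_le).trans ?_
      calc ℓ * P.natDegree ≤ ℓ * 1 := Nat.mul_le_mul_left _ hdeg
        _ = ℓ := mul_one _
    have hev : (a + b) ^ ℓ = ∑ k ∈ Finset.range (ℓ + 1), (P ^ ℓ).coeff k := by
      have h2 : ∀ Q : D[X], eval₂RingHom' (RingHom.id D) 1 (fun _ => Commute.one_right _) Q =
          Q.sum fun _ c => c := by
        intro Q
        show eval₂ (RingHom.id D) 1 Q = _
        rw [eval₂_eq_sum]
        simp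
      have h3 : eval₂RingHom' (RingHom.id D) 1 (fun _ => Commute.one_right _) P = a + b := by
        show eval₂ (RingHom.id D) 1 P = _
        rw [hP, eval₂_add, eval₂_C, eval₂_mul_noncomm _ _ (fun _ => Commute.one_right _)]
        simp
      rw [← h3, ← map_pow, h2, sum_over_range' _ (fun _ => rfl) (ℓ + 1) (by omega)]
    have hmid : ∀ k, 0 < k → k < ℓ → (P ^ ℓ).coeff k ∈ cmt R D := by
      intro k hk0 hkl
      have h2 := pc_der (R := R) P ℓ (k - 1)
      have h3 : ((ℓ : ℕ) : D[X]) = 0 := by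
        rw [← C_eq_natCast, hcD, C_0]
      rw [h3, zero_mul, sub_zero, coeff_derivative] at h2
      rw [show k - 1 + 1 = k by omega] at h2
      have h4 : ((k - 1 : ℕ) : D) + 1 = ((k : ℕ) : D) := by
        rw [← Nat.cast_succ]
        congr 1
        omega
      rw [h4] at h2
      -- `k` is invertible in `R`
      have hu : IsUnit ((k : ℕ) : ZMod ℓ) := by
        rw [ZMod.isUnit_iff_coprime]
        exact (Nat.coprime_of_lt_prime hk0.ne' hkl hp).symm
      have hu2 : IsUnit ((k : ℕ) : R) := by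
        have := hu.map (ZMod.castHom (dvd_refl ℓ) R)
        rwa [map_natCast] at this
      obtain ⟨u, hu3⟩ := hu2
      have h5 : (↑u⁻¹ : R) • ((P ^ ℓ).coeff k * ((k : ℕ) : D)) = (P ^ ℓ).coeff k := by
        have h6 : ((k : ℕ) : D) = algebraMap R D (u : R) := by
          rw [hu3, map_natCast]
        rw [h6, ← Algebra.commutes, ← Algebra.smul_def, smul_smul, Units.inv_mul, one_smul]
      rw [← h5]
      exact Submodule.smul_mem _ _ h2
    have h6 : (a + b) ^ ℓ - a ^ ℓ - b ^ ℓ = ∑ k ∈ Finset.Ico 1 ℓ, (P ^ ℓ).coeff k := by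
      rw [hev, Finset.sum_range_succ, h1, Finset.range_eq_Ico,
        Finset.sum_eq_sum_Ico_succ_bot hp.pos, h0]
      abel
    rw [h6]
    refine Submodule.sum_mem _ fun k hk => ?_
    rw [Finset.mem_Ico] at hk
    exact hmid k (by omega) hk.2
  refine ⟨key, ?_⟩
  intro a ha
  have hadd : ∀ x y : D, x ^ ℓ ∈ cmt R D → y ^ ℓ ∈ cmt R D → (x + y) ^ ℓ ∈ cmt R D := by
    intro x y hx hy
    have := Submodule.add_mem _ (Submodule.add_mem _ (key x y) hx) hy
    have h2 : (x + y) ^ ℓ - x ^ ℓ - y ^ ℓ + x ^ ℓ + y ^ ℓ = (x + y) ^ ℓ := by abel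
    rwa [h2] at this
  unfold cmt at ha
  induction ha using Submodule.span_induction with
  | mem x hx =>
    obtain ⟨x, y, rfl⟩ := hx
    have h1 := key (x * y - y * x) (y * x)
    rw [sub_add_cancel] at h1
    obtain ⟨n, hn⟩ : ∃ n, ℓ = n + 1 := ⟨ℓ - 1, by have := hp.pos; omega⟩
    have h3 : (y * x) ^ ℓ = y * (x * y) ^ n * x := by
      rw [hn, pow_succ, ← mul_assoc]
      congr 1
      clear h1 hn
      induction n with
      | zero => simp
      | succ n ih =>
        rw [pow_succ, mul_assoc _ (y * x) y, mul_assoc y x y, ← mul_assoc _ y, ih, mul_assoc y,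
          ← pow_succ]
    have h4 : (x * y) ^ ℓ = x * (y * (x * y) ^ n) := by
      rw [hn, pow_succ', mul_assoc]
    have h5 : (x * y) ^ ℓ - (y * x) ^ ℓ ∈ cmt R D := by
      rw [h3, h4]
      exact comm_mem _ _
    have h6 := Submodule.sub_mem _ h5 h1
    have h7 : (x * y) ^ ℓ - (y * x) ^ ℓ - ((x * y) ^ ℓ - (x * y - y * x) ^ ℓ - (y * x) ^ ℓ) =
        (x * y - y * x) ^ ℓ := by abel
    rwa [h7] at h6
  | zero => rw [zero_pow hp.ne_zero]; exact Submodule.zero_mem _
  | add x y _ _ hx hy => exact hadd x y hx hy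
  | smul r x _ hx =>
    rw [_root_.smul_pow]
    exact Submodule.smul_mem _ _ hx

end Pool.Agent.PST.ET.H65
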